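import Pool.Agent.helper73.AD.GW1
import Pool.Agent.helper99.AG.CLK

open scoped MatrixGroups LinearAlgebra.Projectivization BigOperators
open Matrix UpperHalfPlane
open Pool.Agent.helper73.AD (PS Word Arc sg Cone)

namespace AdSBend

open LeafSystem

theorem WE4_ga_mul (g h : SL(2, ℝ)) (p : Bd × Bd) : ga g (ga h p) = ga (g * h) p := by
  simp only [ga, mul_smul]

theorem WE4_ga_one (p : Bd × Bd) : ga 1 p = p := by
  simp only [ga, one_smul]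

theorem WE4_gat_mul (g h : SL(2, ℝ)) (τ : Tri) : gat g (gat h τ) = gat (g * h) τ := by
  simp only [gat, WE4_ga_mul]

theorem WE4_gat_one (τ : Tri) : gat 1 τ = τ := by
  simp only [gat, WE4_ga_one]

/-- positive powers of a hyperbolic element move the points off its axis -/
theorem WE4_ne (hB2 : BD2_stmt) (hB4 : BD4_stmt) {g : SL(2, ℝ)} {p : Bd × Bd}
    (h : Attracts g p) {k : ℕ} (hk : k ≠ 0) {c : Bd} (hc : Cyc p.2 c p.1) : g ^ k • c ≠ c := by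
  obtain ⟨m, rfl⟩ := Nat.exists_eq_succ_of_ne_zero hk
  intro e
  have e1 : g ^ (m + 1) • c = g ^ m • (g • c) := by rw [pow_succ, mul_smul]
  have hc2 : Cyc p.2 (g • c) p.1 := by
    have := (hB2 g p.2 c p.1).2 hc
    rwa [h.2.1, h.2.2.1] at this
  have h1 := h.2.2.2 c hc
  have h2 := (CLK_iter hB2 hB4 h m _ hc2).1
  rw [← e1, e] at h2
  rcases h2 with h2 | h2
  · exact (hB4.1 _ _ _ h1).2.1 h2
  · exact hB4.2.2.1 _ _ _ h1 h2

/-- the translates of a leaf which crosses the axis are distinct -/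
theorem WE4_inj (hB2 : BD2_stmt) (hB4 : BD4_stmt) {g : SL(2, ℝ)} {p l : Bd × Bd}
    (h : Attracts g p) (hc : Cyc p.2 l.1 p.1 ∨ Cyc p.2 l.2 p.1) {m n : ℤ}
    (e : ga ((g ^ m)⁻¹) l = ga ((g ^ n)⁻¹) l) : m = n := by
  have key : ∀ m n : ℤ, m < n → ga ((g ^ m)⁻¹) l = ga ((g ^ n)⁻¹) l → False := by
    intro m n hmn e
    obtain ⟨k, hk⟩ := Int.eq_ofNat_of_zero_le (by omega : 0 ≤ n - m)
    have hk0 : k ≠ 0 := by
      rintro rfl
      simp at hk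
      omega
    have e1 : ga (g ^ n) (ga ((g ^ m)⁻¹) l) = l := by
      rw [e, WE4_ga_mul, mul_inv_cancel, WE4_ga_one]
    have e2 : g ^ n * (g ^ m)⁻¹ = g ^ k := by
      rw [← _root_.zpow_neg, ← _root_.zpow_add, ← _root_.zpow_natCast]
      congr 1
    rw [WE4_ga_mul, e2] at e1
    rcases hc with hc | hc
    · exact WE4_ne hB2 hB4 h hk0 hc (congrArg Prod.fst e1)
    · exact WE4_ne hB2 hB4 h hk0 hc (congrArg Prod.snd e1)
  rcases lt_trichotomy m n with h1 | h1 | h1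
  · exact (key m n h1 e).elim
  · exact h1
  · exact (key n m h1 e.symm).elim

/-- finiteness for one orbit of hexagons along a leaf -/
theorem WE4_fin (hB2 : BD2_stmt) (hB4 : BD4_stmt) (hF0 : WF0_stmt) (hF2 : WF2_stmt)
    {Γ : Subgroup SL(2, ℝ)} {J K : Type} (c : WCtx Γ J K) (B : c.Base) {p : Bd × Bd}
    {g : SL(2, ℝ)} (hg : g ∈ Γ) (hgp : Attracts g p)
    (hc : Cyc p.2 c.l.1 p.1 ∨ Cyc p.2 c.l.2 p.1) {τ : Tri} (hτ : c.X.S.IsHex τ) :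
    {n : ℤ | chT c.l (gat (g ^ n) τ) ≠ chi c.l (B.y (gat (g ^ n) τ))}.Finite := by
  obtain ⟨f1, f2, -, -⟩ := hF0
  have hfin := hF2 Γ J K c τ hτ (B.y τ) (B.y_off τ hτ)
  refine Set.Finite.of_finite_image (f := fun n : ℤ => ga ((g ^ n)⁻¹) c.l)
    (hfin.subset ?_) ?_
  · rintro b ⟨n, hn, rfl⟩
    have hgn : g ^ n ∈ Γ := Γ.zpow_mem hg n
    refine ⟨⟨(g ^ n)⁻¹, Γ.inv_mem hgn, rfl⟩, ?_⟩
    have e0 : ga (g ^ n) (ga ((g ^ n)⁻¹) c.l) = c.l := by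
      rw [WE4_ga_mul, mul_inv_cancel, WE4_ga_one]
    have e1 := f2 (g ^ n) (ga ((g ^ n)⁻¹) c.l) τ
    have e2 := f1 (g ^ n) (ga ((g ^ n)⁻¹) c.l) (B.y τ)
    rw [e0] at e1 e2
    rw [← B.y_ga _ hgn _ hτ] at e2
    show chT (ga ((g ^ n)⁻¹) c.l) τ ≠ chi (ga ((g ^ n)⁻¹) c.l) (B.y τ)
    rw [← e1, ← e2]
    exact hn
  · intro m _ n _ e
    exact WE4_inj hB2 hB4 hgp hc e

theorem WE4_side (hB2 : BD2_stmt) (hB4 : BD4_stmt) (hG1 : GM1_stmt) (hH1 : HX1_stmt)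
    (hH7 : HX7_stmt) (hF0 : WF0_stmt) (hF2 : WF2_stmt)
    {Γ : Subgroup SL(2, ℝ)} {J K : Type} (c : WCtx Γ J K) (B : c.Base) {p : Bd × Bd}
    (hp : p ∈ c.X.S.L) (hc : Cyc p.2 c.l.1 p.1 ∨ Cyc p.2 c.l.2 p.1) :
    {τ : Tri | c.X.S.IsHex τ ∧ τ.1 = p ∧ chT c.l τ ≠ chi c.l (B.y τ)}.Finite := by
  obtain ⟨q, r, hh⟩ := c.X.pants.hex p hp
  have hgen := hG1 Γ c.hΓ p (c.X.S.closed p hp)
  have hh' := (hH1 Γ c.hΓ c.X.S).2.1 _ _ _ hh
  have fix : ∀ n : ℤ, ga (gen Γ p ^ n) p = p := by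
    have a1 : gen Γ p ∈ MulAction.stabilizer SL(2, ℝ) p.1 := hgen.2.1.2.1
    have a2 : gen Γ p ∈ MulAction.stabilizer SL(2, ℝ) p.2 := hgen.2.1.2.2.1
    intro n
    have b1 : gen Γ p ^ n ∈ MulAction.stabilizer SL(2, ℝ) p.1 := Subgroup.zpow_mem _ a1 n
    have b2 : gen Γ p ^ n ∈ MulAction.stabilizer SL(2, ℝ) p.2 := Subgroup.zpow_mem _ a2 n
    exact Prod.ext b1 b2
  have F1 := WE4_fin hB2 hB4 hF0 hF2 c B hgen.1 hgen.2.1 hc (τ := (p, q, r)) hh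
  have F2 := WE4_fin hB2 hB4 hF0 hF2 c B hgen.1 hgen.2.1 hc
    (τ := (p, r, ga (gen Γ p) q)) hh'
  refine ((F1.image fun n : ℤ => gat (gen Γ p ^ n) (p, q, r)).union
    (F2.image fun n : ℤ => gat (gen Γ p ^ n) (p, r, ga (gen Γ p) q))).subset ?_
  rintro ⟨p', u, v⟩ ⟨h1, h2, h3⟩
  simp only at h2
  subst h2
  obtain ⟨n, hn⟩ := (hH7 Γ c.hΓ c.X.S c.X.pants).1 p' q r u v hh h1
  rcases hn with ⟨rfl, rfl⟩ | ⟨rfl, rfl⟩
  · have e : (p', ga (gen Γ p' ^ n) q, ga (gen Γ p' ^ n) r) =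
        gat (gen Γ p' ^ n) (p', q, r) := by
      simp only [gat, fix n]
    refine Or.inl ⟨n, ?_, e.symm⟩
    rw [Set.mem_ofPred_eq, ← e]
    exact h3
  · have e : (p', ga (gen Γ p' ^ n) r, ga (gen Γ p' ^ (n + 1)) q) =
        gat (gen Γ p' ^ n) (p', r, ga (gen Γ p') q) := by
      simp only [gat, fix n, WE4_ga_mul]
      rw [← _root_.zpow_add_one]
    refine Or.inr ⟨n, ?_, e.symm⟩
    rw [Set.mem_ofPred_eq, ← e]
    exact h3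

theorem WE4 (hB2 : BD2_stmt) (hB4 : BD4_stmt) (hG1 : GM1_stmt) (hH1 : HX1_stmt)
    (hH7 : HX7_stmt) (hF0 : WF0_stmt) (hF2 : WF2_stmt) : WE4_stmt := by
  intro Γ J K c B i
  obtain ⟨hm, hb1, hb2⟩ := c.W.mem i
  refine ⟨?_, ?_, ?_⟩
  · exact WE4_side hB2 hB4 hG1 hH1 hH7 hF0 hF2 c B hm (Or.inl hb2)
  · exact WE4_side hB2 hB4 hG1 hH1 hH7 hF0 hF2 c B (p := sw (c.W.A i)) (c.X.S.swap _ hm)
      (Or.inr hb1)
  · have hl : c.l ∈ c.X.S'.L := c.X.D'.memP c.k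
    have hgl := hG1 Γ c.hΓ c.l (c.X.S'.closed _ hl)
    set h := gen Γ c.l with hh
    have hlfix : ga h c.l = c.l := Prod.ext hgl.2.1.2.1 hgl.2.1.2.2.1
    have hper : c.W.A (i + c.w.n + 1) = ga h (c.W.A i) := c.W.perA i
    obtain ⟨f1, f2, -, -⟩ := hF0
    have inv : ∀ g ∈ Γ, ga g c.l = c.l → ∀ τ, c.X.S.IsHex τ →
        chT c.l (gat g τ) - chi c.l (B.y (gat g τ)) = chT c.l τ - chi c.l (B.y τ) := by
      intro g hg e τ hτ
      have e1 := f2 g c.l τ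
      have e2 := f1 g c.l (B.y τ)
      rw [e] at e1 e2
      rw [B.y_ga g hg τ hτ, e1, e2]
    have hexg : ∀ g ∈ Γ, ∀ τ, c.X.S.IsHex τ → c.X.S.IsHex (gat g τ) := by
      intro g hg τ hτ
      exact (hH1 Γ c.hΓ c.X.S).2.2.2.1 g hg _ _ _ hτ
    unfold WCtx.Base.be
    congr 1
    symm
    refine finsum_mem_eq_of_bijOn (fun τ => gat h τ) ⟨?_, ?_, ?_⟩ ?_
    · rintro τ ⟨h1, h2⟩
      refine ⟨hexg h hgl.1 τ h1, ?_⟩
      show ga h τ.1 = _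
      rw [h2, hper]
    · intro τ _ τ' _ e
      have := congrArg (gat h⁻¹) e
      simpa only [WE4_gat_mul, inv_mul_cancel, WE4_gat_one] using this
    · rintro τ ⟨h1, h2⟩
      refine ⟨gat h⁻¹ τ, ⟨hexg _ (Γ.inv_mem hgl.1) τ h1, ?_⟩, ?_⟩
      · show ga h⁻¹ τ.1 = _
        rw [h2, hper]
        show ga h⁻¹ (ga h (sw (c.W.A i))) = _
        rw [WE4_ga_mul, inv_mul_cancel, WE4_ga_one]
      · show gat h (gat h⁻¹ τ) = τ
        rw [WE4_gat_mul, mul_inv_cancel, WE4_gat_one]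
    · rintro τ ⟨h1, h2⟩
      exact (inv h hgl.1 hlfix τ h1).symm

end AdSBend
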