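import Pool.Agent.helper73.AD.GW1
import Pool.Agent.helper99.AW.WE4

open scoped MatrixGroups LinearAlgebra.Projectivization BigOperators
open Matrix UpperHalfPlane
open Pool.Agent.helper73.AD (PS Word Arc sg Cone)

namespace AdSBend

open LeafSystem

/-- the point `i t` -/
noncomputable def WY1_pt (t : {t : ℝ // 0 < t}) : ℍ := ⟨⟨0, t.1⟩, t.2⟩

theorem WY1_pt_re (t : {t : ℝ // 0 < t}) : (WY1_pt t).re = 0 := rfl

theorem WY1_pt_im (t : {t : ℝ // 0 < t}) : (WY1_pt t).im = t.1 := rfl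

theorem WY1_pt_cont : Continuous WY1_pt := by
  rw [UpperHalfPlane.isEmbedding_coe.continuous_iff]
  have : ((fun z : ℍ => (z : ℂ)) ∘ WY1_pt) = fun t => ((t.1 : ℝ) : ℂ) * Complex.I := by
    funext t
    apply Complex.ext <;> simp [WY1_pt]
  rw [show (UpperHalfPlane.coe ∘ WY1_pt) = fun t => ((t.1 : ℝ) : ℂ) * Complex.I from this]
  fun_prop

/-- a geodesic different from the imaginary axis meets it in at most one point -/
theorem WY1_uniq (x y : Bd) (hxy : x ≠ y) (h1 : (x, y) ≠ (bInf, bZero))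
    (h2 : (x, y) ≠ (bZero, bInf)) (s t : {t : ℝ // 0 < t}) (hs : side (WY1_pt s) x y = 0)
    (ht : side (WY1_pt t) x y = 0) : s = t := by
  have key : ∀ z : Bd, z.rep ≠ 0 := fun z => z.rep_nonzero
  have hdt : dt x.rep y.rep ≠ 0 := by
    intro h
    apply hxy
    rw [← x.mk_rep, ← y.mk_rep, Projectivization.mk_eq_mk_iff']
    unfold dt at h
    have hy := key y
    by_cases hy1 : y.rep 1 = 0
    · have hy0 : y.rep 0 ≠ 0 := by
        intro h0
        apply hy
        ext i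
        fin_cases i
        · exact h0
        · exact hy1
      have hx1 : x.rep 1 = 0 := by
        rw [hy1, mul_zero, zero_sub, neg_eq_zero] at h
        exact (mul_eq_zero.1 h).resolve_right hy0
      refine ⟨x.rep 0 / y.rep 0, ?_⟩
      ext i
      fin_cases i
      · show x.rep 0 / y.rep 0 * y.rep 0 = x.rep 0
        field_simp
      · show x.rep 0 / y.rep 0 * y.rep 1 = x.rep 1
        rw [hy1, hx1, mul_zero]
    · refine ⟨x.rep 1 / y.rep 1, ?_⟩
      ext i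
      fin_cases i
      · show x.rep 1 / y.rep 1 * y.rep 0 = x.rep 0
        field_simp
        linarith
      · show x.rep 1 / y.rep 1 * y.rep 1 = x.rep 1
        field_simp
  have inf : ∀ z : Bd, z.rep 1 = 0 → z = bInf := by
    intro z hz
    have hz0 : z.rep 0 ≠ 0 := by
      intro h0
      apply key z
      ext i
      fin_cases i
      · exact h0
      · exact hz
    unfold bInf
    rw [← z.mk_rep, Projectivization.mk_eq_mk_iff']
    refine ⟨z.rep 0, ?_⟩
    ext i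
    fin_cases i
    · simp
    · simp [hz]
  have zer : ∀ z : Bd, z.rep 0 = 0 → z = bZero := by
    intro z hz
    unfold bZero
    rw [← z.mk_rep, Projectivization.mk_eq_mk_iff']
    refine ⟨z.rep 1, ?_⟩
    ext i
    fin_cases i
    · simp [hz]
    · simp
  have nz : ∀ z : Bd, z.rep 1 = 0 → z.rep 0 ≠ 0 := by
    intro z hz h0
    apply key z
    ext i
    fin_cases i
    · exact h0
    · exact hz
  unfold side at hs ht
  rw [WY1_pt_re, WY1_pt_im, mul_eq_zero, or_iff_left hdt] at hs ht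
  simp only [zero_mul, sub_zero] at hs ht
  by_cases hx : x.rep 1 * y.rep 1 = 0
  · exfalso
    rw [hx, mul_zero, add_zero] at hs
    rcases mul_eq_zero.1 hx with hx | hy
    · have := (mul_eq_zero.1 hs).resolve_left (nz x hx)
      exact h1 (by rw [inf x hx, zer y this])
    · have := (mul_eq_zero.1 hs).resolve_right (nz y hy)
      exact h2 (by rw [inf y hy, zer x this])
  · have e : s.1 ^ 2 = t.1 ^ 2 := by
      have : (s.1 ^ 2 - t.1 ^ 2) * (x.rep 1 * y.rep 1) = 0 := by linarith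
      have := (mul_eq_zero.1 this).resolve_right hx
      linarith
    have := (sq_eq_sq₀ s.2.le t.2.le).1 e
    exact Subtype.ext this

theorem WY1_neg_smul (g : SL(2, ℝ)) (z : ℍ) : (-g) • z = g • z := by
  apply UpperHalfPlane.ext
  rw [UpperHalfPlane.coe_specialLinearGroup_apply, UpperHalfPlane.coe_specialLinearGroup_apply]
  have h : ∀ i j, ((-g : SL(2, ℝ)) i j : ℝ) = -(g i j) := by
    intro i j
    rw [Matrix.SpecialLinearGroup.coe_neg]; rfl
  simp only [h, map_neg, Complex.ofReal_neg]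
  rw [← neg_div_neg_eq]
  congr 1 <;> ring

theorem WY1_neg_one (z : ℍ) : (-1 : SL(2, ℝ)) • z = z := by
  rw [WY1_neg_smul, one_smul]

/-- a geodesic which is not a leaf has a point off the leaves -/
theorem WY1_off (hB6 : BD6_stmt) (hP1 : PT1_stmt) (hP5 : PT5_stmt) (hG4 : GM4_stmt)
    {Γ : Subgroup SL(2, ℝ)} (hΓ : IsClosedSurfaceGroup Γ) (S : LeafSystem Γ) (p : Bd × Bd)
    (hp : p.1 ≠ p.2) (hpS : p ∉ S.L) : ∃ z, side z p.1 p.2 = 0 ∧ S.OffPt z := by
  obtain ⟨F, hF⟩ := hB6.1 p hp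
  let E : Set {t : ℝ // 0 < t} := {t | 1 ≤ t.1 ∧ t.1 ≤ 2}
  have hEc : IsCompact E := by
    rw [Topology.IsEmbedding.subtypeVal.isCompact_iff]
    have : Subtype.val '' E = Set.Icc (1 : ℝ) 2 := by
      ext t
      constructor
      · rintro ⟨t, h, rfl⟩
        exact h
      · intro h
        exact ⟨⟨t, lt_of_lt_of_le one_pos h.1⟩, h, rfl⟩
    rw [this]
    exact isCompact_Icc
  have hEi : E.Infinite := by
    have h1 : (Set.Icc (1 : ℝ) 2).Infinite := Set.Icc_infinite one_lt_two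
    have : Subtype.val '' E = Set.Icc (1 : ℝ) 2 := by
      ext t
      constructor
      · rintro ⟨t, h, rfl⟩
        exact h
      · intro h
        exact ⟨⟨t, lt_of_lt_of_le one_pos h.1⟩, h, rfl⟩
    rw [← this] at h1
    exact h1.of_image _
  have hcont : Continuous fun t => F • WY1_pt t := WY1_pt_cont.const_smul F
  have hfin := hG4 Γ hΓ S _ (hEc.image hcont)
  have hon : ∀ t, side (F • WY1_pt t) p.1 p.2 = 0 := by
    intro t
    obtain ⟨a, b⟩ := hP5.1 F p (WY1_pt t) hF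
    rw [WY1_pt_re] at a b
    rcases lt_trichotomy (side (F • WY1_pt t) p.1 p.2) 0 with h | h | h
    · exact absurd (a.1 h) (lt_irrefl 0)
    · exact h
    · exact absurd (b.1 h) (lt_irrefl 0)
  have hone : ∀ q ∈ S.L, {t | side (F • WY1_pt t) q.1 q.2 = 0}.Subsingleton := by
    intro q hq s hs t ht
    have e1 : F • (F⁻¹ • q.1) = q.1 := smul_inv_smul F q.1
    have e2 : F • (F⁻¹ • q.2) = q.2 := smul_inv_smul F q.2
    rw [Set.mem_ofPred_eq, ← e1, ← e2, (hP1 F _ _ _).2.2.1] at hs ht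
    refine WY1_uniq (F⁻¹ • q.1) (F⁻¹ • q.2) ?_ ?_ ?_ s t hs ht
    · intro h
      exact (S.closed q hq).1 (MulAction.injective F⁻¹ h)
    · intro h
      apply hpS
      have a1 : F⁻¹ • q.1 = bInf := congrArg Prod.fst h
      have a2 : F⁻¹ • q.2 = bZero := congrArg Prod.snd h
      have : q = p := by
        apply Prod.ext
        · rw [← hF.1, ← a1, smul_inv_smul]
        · rw [← hF.2, ← a2, smul_inv_smul]
      rwa [← this]
    · intro h
      apply hpS
      have a1 : F⁻¹ • q.1 = bZero := congrArg Prod.fst h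
      have a2 : F⁻¹ • q.2 = bInf := congrArg Prod.snd h
      have : sw q = p := by
        apply Prod.ext
        · show q.2 = p.1
          rw [← hF.1, ← a2, smul_inv_smul]
        · show q.1 = p.2
          rw [← hF.2, ← a1, smul_inv_smul]
      rw [← this]
      exact S.swap q hq
  have hbad : (⋃ q ∈ {q : Bd × Bd | q ∈ S.L ∧ ∃ z ∈ (fun t => F • WY1_pt t) '' E,
      side z q.1 q.2 = 0}, {t | side (F • WY1_pt t) q.1 q.2 = 0}).Finite := by
    refine Set.Finite.biUnion hfin ?_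
    intro q hq
    exact (hone q hq.1).finite
  obtain ⟨t, htE, htb⟩ := (hEi.sdiff hbad).nonempty
  refine ⟨F • WY1_pt t, hon t, ?_⟩
  intro q hq h0
  apply htb
  simp only [Set.mem_iUnion]
  exact ⟨q, ⟨hq, _, ⟨t, htE, rfl⟩, h0⟩, h0⟩

theorem WY1 (hB6 : BD6_stmt) (hP1 : PT1_stmt) (hP5 : PT5_stmt) (hG4 : GM4_stmt)
    (hG1 : GM1_stmt) (hN5 : PN5_stmt) (hH1 : HX1_stmt) (hH6 : HX6_stmt) (hH7 : HX7_stmt)
    (hR2b : WR2b_stmt) : WY1_stmt := by
  intro Γ J K _ _ c
  have hΓ := c.hΓ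
  have hS := c.X.pants
  obtain ⟨x1, x2, x3, x4, x5, x6, x7⟩ := hH1 Γ hΓ c.X.S
  obtain ⟨r1, r2, r3, r4, r5, r6⟩ := hR2b Γ hΓ c.X.S hS
  have seamHex : ∀ p u, c.X.S.Seam p u → ∃ v, c.X.S.Hex p u v := by
    rintro p u ⟨x, h | h⟩
    · exact ⟨x, h⟩
    · exact ⟨_, x2 _ _ _ (x1 _ _ _ h)⟩
  choose U' hU' using fun j => seamHex _ _ (c.X.D.seamU j)
  choose V' hV' using fun j => seamHex _ _ (c.X.D.seamV j)
  have hPt : ∀ j, ∃ z, side z (c.X.D.P j).1 (c.X.D.P j).2 = 0 ∧ c.X.S'.OffPt z := by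
    intro j
    have hm := c.X.D.memP j
    refine WY1_off hB6 hP1 hP5 hG4 hΓ c.X.S' (c.X.D.P j) (c.X.S.closed _ hm).1 ?_
    intro h
    obtain ⟨q, hq, hl⟩ := c.X.cross _ hm
    exact c.X.S'.unlinked _ h q hq hl
  choose yj hyj hyo using hPt
  -- the reference triples
  let T : J → Fin 4 → Tri := fun j => ![(c.X.D.P j, c.X.D.U j, U' j),
    (c.X.D.P j, U' j, ga (gen Γ (c.X.D.P j)) (c.X.D.U j)),
    (sw (c.X.D.P j), c.X.D.V j, V' j),
    (sw (c.X.D.P j), V' j, ga (gen Γ (sw (c.X.D.P j))) (c.X.D.V j))]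
  have T0 : ∀ j, T j 0 = (c.X.D.P j, c.X.D.U j, U' j) := fun j => rfl
  have T1 : ∀ j, T j 1 = (c.X.D.P j, U' j, ga (gen Γ (c.X.D.P j)) (c.X.D.U j)) := fun j => rfl
  have T2 : ∀ j, T j 2 = (sw (c.X.D.P j), c.X.D.V j, V' j) := fun j => rfl
  have T3 : ∀ j, T j 3 = (sw (c.X.D.P j), V' j,
      ga (gen Γ (sw (c.X.D.P j))) (c.X.D.V j)) := fun j => rfl
  have Thex : ∀ j k, c.X.S.IsHex (T j k) := by
    intro j k
    fin_cases k
    · exact hU' j
    · exact x2 _ _ _ (hU' j)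
    · exact hV' j
    · exact x2 _ _ _ (hV' j)
  have Tfst : ∀ j k, (T j k).1 = c.X.D.P j ∨ (T j k).1 = sw (c.X.D.P j) := by
    intro j k
    fin_cases k
    · exact Or.inl rfl
    · exact Or.inl rfl
    · exact Or.inr rfl
    · exact Or.inr rfl
  have Tcls : ∀ j k, c.X.D.cls (T j k).1 = j := by
    intro j k
    rcases Tfst j k with h | h
    · rw [h, c.X.D.clsP]
    · rw [h, c.X.D.cls_sw _ (c.X.D.memP j), c.X.D.clsP]
  -- every hexagon is a translate of a reference triple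
  have fix : ∀ p ∈ c.X.S.L, ∀ n : ℤ, ga (gen Γ p ^ n) p = p := by
    intro p hp n
    have hgen := hG1 Γ hΓ p (c.X.S.closed p hp)
    have a1 : gen Γ p ∈ MulAction.stabilizer SL(2, ℝ) p.1 := hgen.2.1.2.1
    have a2 : gen Γ p ∈ MulAction.stabilizer SL(2, ℝ) p.2 := hgen.2.1.2.2.1
    have b1 : gen Γ p ^ n ∈ MulAction.stabilizer SL(2, ℝ) p.1 := Subgroup.zpow_mem _ a1 n
    have b2 : gen Γ p ^ n ∈ MulAction.stabilizer SL(2, ℝ) p.2 := Subgroup.zpow_mem _ a2 n
    exact Prod.ext b1 b2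
  have ex1 : ∀ p q r u v, c.X.S.Hex p q r → c.X.S.Hex p u v → ∃ g ∈ Γ,
      (p, u, v) = gat g (p, q, r) ∨ (p, u, v) = gat g (p, r, ga (gen Γ p) q) := by
    intro p q r u v h1 h2
    have hp : p ∈ c.X.S.L := h1.1.1
    have hgen := hG1 Γ hΓ p (c.X.S.closed p hp)
    obtain ⟨n, hn | hn⟩ := (hH7 Γ hΓ c.X.S hS).1 p q r u v h1 h2
    · refine ⟨gen Γ p ^ n, Γ.zpow_mem hgen.1 n, Or.inl ?_⟩
      rw [hn.1, hn.2]
      simp only [gat, fix p hp n]
    · refine ⟨gen Γ p ^ n, Γ.zpow_mem hgen.1 n, Or.inr ?_⟩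
      rw [hn.1, hn.2]
      simp only [gat, fix p hp n, WE4_ga_mul]
      rw [← _root_.zpow_add_one]
  have exT : ∀ τ, c.X.S.IsHex τ → ∃ j k, ∃ g ∈ Γ, τ = gat g (T j k) := by
    intro τ hτ
    have hp : τ.1 ∈ c.X.S.L := hτ.1.1
    obtain ⟨γ, hγ, hcase⟩ := c.X.D.cls_inj (c.X.D.P (c.X.D.cls τ.1)) (c.X.D.memP _) τ.1 hp
      (c.X.D.clsP _)
    have hback : c.X.S.IsHex (gat γ⁻¹ τ) := r1 _ (Γ.inv_mem hγ) τ hτ
    rcases hcase with hcase | hcase
    · have e : (gat γ⁻¹ τ).1 = c.X.D.P (c.X.D.cls τ.1) := by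
        show ga γ⁻¹ τ.1 = _
        conv_lhs => rw [hcase]
        rw [WE4_ga_mul, inv_mul_cancel, WE4_ga_one]
      rcases hh : gat γ⁻¹ τ with ⟨q, u, v⟩
      rw [hh] at e hback
      simp only at e
      subst e
      obtain ⟨g, hg, h | h⟩ := ex1 _ _ _ _ _ (hU' (c.X.D.cls τ.1)) hback
      · refine ⟨c.X.D.cls τ.1, 0, γ * g, Γ.mul_mem hγ hg, ?_⟩
        rw [← WE4_gat_mul, T0, ← h, ← hh, WE4_gat_mul, mul_inv_cancel, WE4_gat_one]
      · refine ⟨c.X.D.cls τ.1, 1, γ * g, Γ.mul_mem hγ hg, ?_⟩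
        rw [← WE4_gat_mul, T1, ← h, ← hh, WE4_gat_mul, mul_inv_cancel, WE4_gat_one]
    · have e : (gat γ⁻¹ τ).1 = sw (c.X.D.P (c.X.D.cls τ.1)) := by
        show ga γ⁻¹ τ.1 = _
        conv_lhs => rw [hcase]
        rw [WE4_ga_mul, inv_mul_cancel, WE4_ga_one]
      rcases hh : gat γ⁻¹ τ with ⟨q, u, v⟩
      rw [hh] at e hback
      simp only at e
      subst e
      obtain ⟨g, hg, h | h⟩ := ex1 _ _ _ _ _ (hV' (c.X.D.cls τ.1)) hback
      · refine ⟨c.X.D.cls τ.1, 2, γ * g, Γ.mul_mem hγ hg, ?_⟩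
        rw [← WE4_gat_mul, T2, ← h, ← hh, WE4_gat_mul, mul_inv_cancel, WE4_gat_one]
      · refine ⟨c.X.D.cls τ.1, 3, γ * g, Γ.mul_mem hγ hg, ?_⟩
        rw [← WE4_gat_mul, T3, ← h, ← hh, WE4_gat_mul, mul_inv_cancel, WE4_gat_one]
  -- uniqueness
  have un0 : ∀ p q r g, g ∈ Γ → c.X.S.Hex p q r →
      (gat g (p, q, r) = (p, r, ga (gen Γ p) q) → False) := by
    intro p q r g hg h e
    have : ga g q = r := congrArg (fun t : Tri => t.2.1) e
    exact (hH6 Γ hΓ c.X.S hS q r p (x1 _ _ _ h) g hg).1 this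
  have un1 : ∀ j k k' g, g ∈ Γ → gat g (T j k) = T j k' → PEq g 1 := by
    intro j k k' g hg e
    by_cases hk : k = k'
    · subst hk
      exact r2 g hg _ (Thex j k) e
    exfalso
    have e' : gat g⁻¹ (T j k') = T j k := by
      rw [← e, WE4_gat_mul, inv_mul_cancel, WE4_gat_one]
    have n1 : ∀ g ∈ Γ, ga g (c.X.D.P j) ≠ sw (c.X.D.P j) := fun g hg =>
      r6 _ (c.X.D.memP j) g hg
    have n2 : ∀ g ∈ Γ, ga g (sw (c.X.D.P j)) ≠ c.X.D.P j := by
      intro g hg h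
      refine n1 g⁻¹ (Γ.inv_mem hg) ?_
      rw [← h, WE4_ga_mul, inv_mul_cancel, WE4_ga_one, h]
    have ef : ga g (T j k).1 = (T j k').1 := congrArg Prod.fst e
    have hgi := Γ.inv_mem hg
    fin_cases k <;> fin_cases k'
    · exact hk rfl
    · exact un0 _ _ _ g hg (hU' j) e
    · exact n1 g hg ef
    · exact n1 g hg ef
    · exact un0 _ _ _ _ hgi (hU' j) e'
    · exact hk rfl
    · exact n1 g hg ef
    · exact n1 g hg ef
    · exact n2 g hg ef
    · exact n2 g hg ef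
    · exact hk rfl
    · exact un0 _ _ _ g hg (hV' j) e
    · exact n2 g hg ef
    · exact n2 g hg ef
    · exact un0 _ _ _ _ hgi (hV' j) e'
    · exact hk rfl
  have un2 : ∀ j k j' k' g g', g ∈ Γ → g' ∈ Γ → gat g (T j k) = gat g' (T j' k') →
      g • yj j = g' • yj j' := by
    intro j k j' k' g g' hg hg' e
    have e1 : gat (g'⁻¹ * g) (T j k) = T j' k' := by
      rw [← WE4_gat_mul, e, WE4_gat_mul, inv_mul_cancel, WE4_gat_one]
    have hgg : g'⁻¹ * g ∈ Γ := Γ.mul_mem (Γ.inv_mem hg') hg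
    have e2 : j = j' := by
      have h1 := Tcls j' k'
      rw [← e1] at h1
      have h2 : c.X.D.cls (ga (g'⁻¹ * g) (T j k).1) = c.X.D.cls (T j k).1 :=
        c.X.D.cls_ga _ hgg _ (Thex j k).1.1
      have h3 : c.X.D.cls (T j k).1 = j' := by
        rw [← h2]
        exact h1
      rw [Tcls] at h3
      exact h3
    subst e2
    have e3 := un1 j k k' _ hgg e1
    have e4 : (g'⁻¹ * g) • yj j = yj j := by
      rcases e3 with h | h
      · rw [h, one_smul]
      · rw [h, WY1_neg_one]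
    rw [mul_smul, inv_smul_eq_iff] at e4
    exact e4
  classical
  let y : Tri → ℍ := fun τ =>
    if h : ∃ j k, ∃ g ∈ Γ, τ = gat g (T j k) then
      h.choose_spec.choose_spec.choose • yj h.choose else UpperHalfPlane.I
  have yval : ∀ j k g, g ∈ Γ → y (gat g (T j k)) = g • yj j := by
    intro j k g hg
    have h : ∃ j' k', ∃ g' ∈ Γ, gat g (T j k) = gat g' (T j' k') := ⟨j, k, g, hg, rfl⟩
    have e : y (gat g (T j k)) = h.choose_spec.choose_spec.choose • yj h.choose := dif_pos h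
    rw [e]
    obtain ⟨s1, s2⟩ := h.choose_spec.choose_spec.choose_spec
    exact (un2 _ _ _ _ _ _ hg s1 s2).symm
  have yval1 : ∀ j k, y (T j k) = yj j := by
    intro j k
    have := yval j k 1 Γ.one_mem
    rwa [WE4_gat_one, one_smul] at this
  refine ⟨{
    U' := U'
    V' := V'
    hexU := hU'
    hexV := hV'
    y := y
    y_ga := ?_
    y_on := ?_
    y_off := ?_
    y_one := ?_
    y_two := ?_
    y_three := ?_ }⟩
  · intro γ hγ τ hτ
    obtain ⟨j, k, g, hg, rfl⟩ := exT τ hτ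
    rw [WE4_gat_mul, yval _ _ _ (Γ.mul_mem hγ hg), yval _ _ _ hg, mul_smul]
  · intro τ hτ
    obtain ⟨j, k, g, hg, rfl⟩ := exT τ hτ
    rw [yval _ _ _ hg]
    show side (g • yj j) (g • (T j k).1.1) (g • (T j k).1.2) = 0
    rw [(hP1 g _ _ _).2.2.1]
    rcases Tfst j k with h | h
    · rw [h, hyj]
    · rw [h]
      show side (yj j) (c.X.D.P j).2 (c.X.D.P j).1 = 0
      rw [(hP1 1 _ _ _).2.2.2, hyj, neg_zero]
  · intro τ hτ
    obtain ⟨j, k, g, hg, rfl⟩ := exT τ hτ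
    rw [yval _ _ _ hg]
    exact (hN5 Γ c.X.S').2.2.1 g hg _ (hyo j)
  · intro j
    exact (yval1 j 1).trans (yval1 j 0).symm
  · intro j
    exact (yval1 j 2).trans (yval1 j 0).symm
  · intro j
    exact (yval1 j 3).trans (yval1 j 0).symm

end AdSBend
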